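import Pool.Agent.Helper75.KT.AlgDefs
import Pool.Agent.Helper75.KT.Block
import Pool.Agent.Helper11.KTOp
import Pool.Agent.Helper58.KTTw

/-!
# The simple AH algebra, part 1: points and representations on `ℓ²(ℕ)`
-/

set_option linter.unusedSectionVars false

namespace Pool.Agent.Helper75.KT

open Matrix Filter Topology CPd
open scoped Kronecker ComplexOrder Matrix.Norms.L2Operator

instance instNonemptyCPd2 : Nonempty (CPd 2) := by
  refine ⟨⟨!![1, 0; 0, 0], ⟨?_, ?_⟩, ?_⟩⟩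
  · ext i j
    fin_cases i <;> fin_cases j <;> simp [Matrix.mul_apply, Fin.sum_univ_two]
  · ext i j
    fin_cases i <;> fin_cases j <;> simp
  · simp [Matrix.trace, Matrix.diag]

/-- the evaluation points of the construction -/
noncomputable def xs (l : ℕ) : XX := TopologicalSpace.denseSeq XX (Nat.unpair l).1

theorem exists_xs_eq_zero (l₀ : ℕ) : ∃ l ≥ l₀, xs l = xs 0 := by
  refine ⟨Nat.pair (Nat.unpair 0).1 l₀, Nat.right_le_pair _ _, ?_⟩
  unfold xs
  rw [Nat.unpair_pair]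

theorem dense_xs (i : ℕ) : Dense {x : XX | ∃ m ≥ i, x = xs m} := by
  apply (TopologicalSpace.denseRange_denseSeq XX).mono
  rintro _ ⟨n, rfl⟩
  refine ⟨Nat.pair n i, Nat.right_le_pair _ _, ?_⟩
  unfold xs
  rw [Nat.unpair_pair]

/-- the point at which block number `t` of stage `i` is evaluated -/
noncomputable def PP (i t : ℕ) : XX := if t = 0 then xs 0 else xs (i + padicValNat 2 t)

theorem PP_zero (i : ℕ) : PP i 0 = xs 0 := if_pos rfl

theorem PP_two_mul (i t : ℕ) : PP i (2 * t) = PP (i + 1) t := by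
  unfold PP
  rcases Nat.eq_zero_or_pos t with h | h
  · subst h; simp
  · have : Fact (Nat.Prime 2) := ⟨Nat.prime_two⟩
    rw [if_neg (by omega), if_neg (by omega), padicValNat.mul (by norm_num) (by omega),
      padicValNat_self]
    congr 1; omega

theorem PP_two_mul_add_one (i t : ℕ) : PP i (2 * t + 1) = xs i := by
  unfold PP
  rw [if_neg (by omega), padicValNat.eq_zero_of_not_dvd (by omega), add_zero]

theorem PP_two_pow (i v : ℕ) : PP i (2 ^ v) = xs (i + v) := by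
  unfold PP
  have : Fact (Nat.Prime 2) := ⟨Nat.prime_two⟩
  rw [if_neg (by positivity), padicValNat.prime_pow]

/-- matrix entries of the representation -/
noncomputable def rhoM (i : ℕ) (F : XX → Matrix (Fin (2 ^ i)) (Fin (2 ^ i)) ℂ) (s t : ℕ) : ℂ :=
  if s / 2 ^ i = t / 2 ^ i then
    F (PP i (s / 2 ^ i)) ⟨s % 2 ^ i, Nat.mod_lt _ (by positivity)⟩
      ⟨t % 2 ^ i, Nat.mod_lt _ (by positivity)⟩
  else 0

theorem exists_rho (i : ℕ) (F : Tw i) : ∃ T : H2 →L[ℂ] H2, ∀ s t, ent T s t = rhoM i F.1 s t := by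
  obtain ⟨C, hC⟩ := Tw_bdd i F
  apply exists_blockOp (2 ^ i) (by positivity) (rhoM i F.1) (max C 0)
  · intro s t
    unfold rhoM
    split_ifs
    · exact (hC _ _ _).trans (le_max_left _ _)
    · rw [norm_zero]; exact le_max_right _ _
  · intro s t h
    unfold rhoM
    rw [if_neg h]

/-- the representation as a function -/
noncomputable def rhoF (i : ℕ) (F : Tw i) : H2 →L[ℂ] H2 := (exists_rho i F).choose

theorem ent_rhoF (i : ℕ) (F : Tw i) (s t : ℕ) : ent (rhoF i F) s t = rhoM i F.1 s t :=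
  (exists_rho i F).choose_spec s t

theorem exists_form (i s : ℕ) : ∃ (b : ℕ) (k : Fin (2 ^ i)), s = b * 2 ^ i + k :=
  ⟨s / 2 ^ i, ⟨s % 2 ^ i, Nat.mod_lt _ (by positivity)⟩, (Nat.div_add_mod' s (2 ^ i)).symm⟩

theorem form_div (i b : ℕ) (j : Fin (2 ^ i)) : (b * 2 ^ i + j.1) / 2 ^ i = b := by
  have hB : 0 < 2 ^ i := by positivity
  rw [mul_comm, Nat.mul_add_div hB, Nat.div_eq_of_lt j.2, add_zero]

theorem form_mod (i b : ℕ) (j : Fin (2 ^ i)) : (b * 2 ^ i + j.1) % 2 ^ i = j.1 := by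
  rw [mul_comm, Nat.mul_add_mod, Nat.mod_eq_of_lt j.2]

theorem form_inj (i b b' : ℕ) (k l : Fin (2 ^ i)) :
    b * 2 ^ i + k.1 = b' * 2 ^ i + l.1 ↔ b = b' ∧ k = l := by
  constructor
  · intro h
    refine ⟨?_, ?_⟩
    · rw [← form_div i b k, h, form_div]
    · apply Fin.ext
      rw [← form_mod i b k, h, form_mod]
  · rintro ⟨rfl, rfl⟩; rfl

theorem rhoM_form (i : ℕ) (F : XX → Matrix (Fin (2 ^ i)) (Fin (2 ^ i)) ℂ) (b b' : ℕ)
    (k l : Fin (2 ^ i)) : rhoM i F (b * 2 ^ i + k) (b' * 2 ^ i + l) =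
      if b = b' then F (PP i b) k l else 0 := by
  unfold rhoM
  simp only [form_div, form_mod, Fin.eta]

theorem sum_block (B b : ℕ) (f : ℕ → ℂ) :
    ∑ r ∈ (Finset.univ : Finset (Fin B)).map
      ⟨fun j => b * B + j.1, fun j k h => Fin.ext (by simpa using h)⟩, f r
      = ∑ j : Fin B, f (b * B + j.1) := by
  rw [Finset.sum_map]
  rfl

theorem ent_rhoF_mul (i : ℕ) (F G : Tw i) (s t : ℕ) :
    ent (rhoF i F * rhoF i G) s t = ent (rhoF i (F * G)) s t := by
  obtain ⟨b, k, rfl⟩ := exists_form i s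
  obtain ⟨b', l, rfl⟩ := exists_form i t
  rw [ent_mul _ _ _ _ ((Finset.univ : Finset (Fin (2 ^ i))).map
      ⟨fun j => b' * 2 ^ i + j.1, fun j k h => Fin.ext (by simpa using h)⟩), sum_block]
  · simp only [ent_rhoF, rhoM_form, if_true]
    by_cases hb : b = b'
    · subst hb
      simp only [if_true]
      have h3 : (F * G : Tw i).1 (PP i b) = F.1 (PP i b) * G.1 (PP i b) := rfl
      rw [h3, Matrix.mul_apply]
    · simp only [if_neg hb, zero_mul, Finset.sum_const_zero]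
  · intro r hr
    obtain ⟨c, m, rfl⟩ := exists_form i r
    rw [ent_rhoF, rhoM_form, if_neg]
    rintro rfl
    apply hr
    rw [Finset.mem_map]
    exact ⟨m, Finset.mem_univ _, rfl⟩

/-- the representation `ρ_i` of stage `i` -/
noncomputable def rho (i : ℕ) : Tw i →⋆ₐ[ℂ] (H2 →L[ℂ] H2) where
  toFun := rhoF i
  map_one' := by
    apply ent_ext
    intro s t
    obtain ⟨b, k, rfl⟩ := exists_form i s
    obtain ⟨b', l, rfl⟩ := exists_form i t
    have h1 : ∀ x, (1 : Tw i).1 x = (1 : Matrix (Fin (2 ^ i)) (Fin (2 ^ i)) ℂ) := fun x => rfl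
    rw [ent_rhoF, ent_one, rhoM_form, h1, Matrix.one_apply]
    simp only [form_inj]
    split_ifs <;> first | rfl | (exfalso; tauto)
  map_mul' F G := by
    apply ent_ext
    intro s t
    exact (ent_rhoF_mul i F G s t).symm
  map_zero' := by
    apply ent_ext
    intro s t
    have h0 : ent (0 : H2 →L[ℂ] H2) s t = 0 := by
      have := ent_smul 0 (0 : H2 →L[ℂ] H2) s t
      rw [zero_smul, zero_mul] at this
      exact this
    rw [ent_rhoF, h0]
    unfold rhoM
    split_ifs <;> rfl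
  map_add' F G := by
    apply ent_ext
    intro s t
    rw [ent_add, ent_rhoF, ent_rhoF, ent_rhoF]
    unfold rhoM
    split_ifs
    · rfl
    · rw [add_zero]
  commutes' c := by
    apply ent_ext
    intro s t
    obtain ⟨b, k, rfl⟩ := exists_form i s
    obtain ⟨b', l, rfl⟩ := exists_form i t
    have h1 : ∀ x, (c • (1 : Tw i)).1 x = c • (1 : Matrix (Fin (2 ^ i)) (Fin (2 ^ i)) ℂ) :=
      fun x => rfl
    rw [Algebra.algebraMap_eq_smul_one, Algebra.algebraMap_eq_smul_one, ent_smul, ent_rhoF,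
      ent_one, rhoM_form, h1, Matrix.smul_apply, Matrix.one_apply, smul_eq_mul]
    simp only [form_inj]
    split_ifs <;> first | rfl | (exfalso; tauto) | rw [mul_zero]
  map_star' F := by
    apply ent_ext
    intro s t
    obtain ⟨b, k, rfl⟩ := exists_form i s
    obtain ⟨b', l, rfl⟩ := exists_form i t
    have h1 : ∀ x, (star F : Tw i).1 x = (F.1 x)ᴴ := fun x => rfl
    rw [ent_star, ent_rhoF, ent_rhoF, rhoM_form, rhoM_form, h1]
    by_cases h : b = b'
    · subst h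
      rw [if_pos rfl, if_pos rfl, Matrix.conjTranspose_apply]
    · rw [if_neg h, if_neg (fun h' => h h'.symm), star_zero]

theorem ent_rho (i : ℕ) (F : Tw i) (s t : ℕ) : ent (rho i F) s t = rhoM i F.1 s t :=
  ent_rhoF i F s t

theorem rhoM_block (i : ℕ) (F : XX → Matrix (Fin (2 ^ i)) (Fin (2 ^ i)) ℂ) (b : ℕ)
    (k l : Fin (2 ^ i)) : rhoM i F (b * 2 ^ i + k) (b * 2 ^ i + l) = F (PP i b) k l := by
  rw [rhoM_form, if_pos rfl]

theorem norm_apply_le_rho (i : ℕ) (F : Tw i) (x : XX) (hx : ∃ m ≥ i, x = xs m)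
    (k l : Fin (2 ^ i)) : ‖F.1 x k l‖ ≤ ‖rho i F‖ := by
  obtain ⟨m, hm, rfl⟩ := hx
  have h : F.1 (xs m) k l = ent (rho i F) (2 ^ (m - i) * 2 ^ i + k) (2 ^ (m - i) * 2 ^ i + l) := by
    rw [ent_rho, rhoM_block, PP_two_pow, Nat.add_sub_cancel' hm]
  rw [h]
  exact norm_ent_le _ _ _

theorem rho_injective (i : ℕ) : Function.Injective (rho i) := by
  rw [injective_iff_map_eq_zero]
  intro F hF
  apply Tw_dense i _ (dense_xs i)
  intro x hx
  ext k l
  have h := norm_apply_le_rho i F x hx k l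
  rw [hF, norm_zero] at h
  exact norm_le_zero_iff.mp h

theorem rho_up (i : ℕ) (F : Tw i) : rho (i + 1) (up i (xs i) F) = rho i F := by
  apply ent_ext
  intro s t
  rw [ent_rho, ent_rho]
  have hB : 0 < 2 ^ i := by positivity
  have hpow : 2 ^ (i + 1) = 2 ^ i * 2 := pow_succ 2 i
  unfold rhoM
  -- decompose `s` and `t`
  have key : ∀ a : ℕ, (a % 2 ^ (i + 1) < 2 ^ i ∧ a / 2 ^ i = 2 * (a / 2 ^ (i + 1)) ∧
      a % 2 ^ i = a % 2 ^ (i + 1)) ∨ (2 ^ i ≤ a % 2 ^ (i + 1) ∧
      a / 2 ^ i = 2 * (a / 2 ^ (i + 1)) + 1 ∧ a % 2 ^ i = a % 2 ^ (i + 1) - 2 ^ i) := by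
    intro a
    have e1 := Nat.div_add_mod a (2 ^ (i + 1))
    have e2 := Nat.mod_lt a (show 0 < 2 ^ (i + 1) by positivity)
    set A := a / 2 ^ (i + 1)
    set c := a % 2 ^ (i + 1)
    rcases Nat.lt_or_ge c (2 ^ i) with h | h
    · left
      have e3 : a = 2 ^ i * (2 * A) + c := by rw [← e1, hpow]; ring
      refine ⟨h, ?_, ?_⟩
      · conv_lhs => rw [e3]
        rw [Nat.mul_add_div hB, Nat.div_eq_of_lt h, add_zero]
      · conv_lhs => rw [e3]
        rw [Nat.mul_add_mod, Nat.mod_eq_of_lt h]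
    · right
      have e3 : a = 2 ^ i * (2 * A + 1) + (c - 2 ^ i) := by
        rw [← e1, hpow]
        have : c = 2 ^ i + (c - 2 ^ i) := by omega
        conv_lhs => rw [this]
        ring
      have h' : c - 2 ^ i < 2 ^ i := by rw [hpow] at e2; omega
      refine ⟨h, ?_, ?_⟩
      · conv_lhs => rw [e3]
        rw [Nat.mul_add_div hB, Nat.div_eq_of_lt h', add_zero]
      · conv_lhs => rw [e3]
        rw [Nat.mul_add_mod, Nat.mod_eq_of_lt h']
  rcases key s with ⟨s1, s2, s3⟩ | ⟨s1, s2, s3⟩ <;> rcases key t with ⟨t1, t2, t3⟩ | ⟨t1, t2, t3⟩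
  · by_cases h : s / 2 ^ (i + 1) = t / 2 ^ (i + 1)
    · rw [if_pos h, if_pos (by rw [s2, t2, h]), up_apply, dif_pos ⟨s1, t1⟩]
      simp only [s2, PP_two_mul, s3, t3]
    · rw [if_neg h, if_neg (by rw [s2, t2]; omega)]
  · rw [if_neg (show ¬ s / 2 ^ i = t / 2 ^ i by rw [s2, t2]; omega)]
    by_cases h : s / 2 ^ (i + 1) = t / 2 ^ (i + 1)
    · rw [if_pos h, up_apply, dif_neg (by simp only; omega), if_neg (by simp only; omega)]
    · rw [if_neg h]
  · rw [if_neg (show ¬ s / 2 ^ i = t / 2 ^ i by rw [s2, t2]; omega)]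
    by_cases h : s / 2 ^ (i + 1) = t / 2 ^ (i + 1)
    · rw [if_pos h, up_apply, dif_neg (by simp only; omega), if_neg (by simp only; omega)]
    · rw [if_neg h]
  · by_cases h : s / 2 ^ (i + 1) = t / 2 ^ (i + 1)
    · rw [if_pos h, if_pos (by rw [s2, t2, h]), up_apply, dif_neg (by simp only; omega),
        if_pos ⟨s1, t1⟩]
      simp only [s2, PP_two_mul_add_one, s3, t3]
    · rw [if_neg h, if_neg (by rw [s2, t2]; omega)]

end Pool.Agent.Helper75.KT
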