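import Pool.Agent.Helper28.KTAlgebra1

/-!
# The simple AH algebra, part 2: the algebra, its finite stages and their coordinates
-/

set_option linter.unusedSectionVars false

namespace Pool.Agent.Helper75.KT

open Matrix Filter Topology CPd
open scoped Kronecker ComplexOrder Matrix.Norms.L2Operator

theorem rho_range_mono : Monotone fun i => ((rho i).range : StarSubalgebra ℂ (H2 →L[ℂ] H2)) := by
  apply monotone_nat_of_le_succ
  rintro i _ ⟨F, rfl⟩
  exact ⟨up i (xs i) F, rho_up i F⟩

/-- the union of the finite stages -/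
noncomputable def UAlg : StarSubalgebra ℂ (H2 →L[ℂ] H2) where
  carrier := {T | ∃ i, T ∈ (rho i).range}
  mul_mem' := by
    rintro a b ⟨i, hi⟩ ⟨j, hj⟩
    exact ⟨max i j, mul_mem (rho_range_mono (le_max_left i j) hi)
      (rho_range_mono (le_max_right i j) hj)⟩
  add_mem' := by
    rintro a b ⟨i, hi⟩ ⟨j, hj⟩
    exact ⟨max i j, add_mem (rho_range_mono (le_max_left i j) hi)
      (rho_range_mono (le_max_right i j) hj)⟩
  algebraMap_mem' := fun c => ⟨0, algebraMap_mem _ c⟩
  star_mem' := by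
    rintro a ⟨i, hi⟩
    exact ⟨i, star_mem hi⟩

/-- the algebra -/
def AA : Type := ↥(UAlg.topologicalClosure)

noncomputable instance : CStarAlgebra AA :=
  StarSubalgebra.cstarAlgebra UAlg.topologicalClosure
    (h_closed := StarSubalgebra.isClosed_topologicalClosure UAlg)

/-- the inclusion of the algebra into the bounded operators -/
noncomputable def valA : AA →⋆ₐ[ℂ] (H2 →L[ℂ] H2) where
  toFun := Subtype.val
  map_one' := rfl
  map_mul' _ _ := rfl
  map_zero' := rfl
  map_add' _ _ := rfl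
  commutes' _ := rfl
  map_star' _ := rfl

theorem valA_injective : Function.Injective valA := Subtype.val_injective

theorem norm_valA (a : AA) : ‖valA a‖ = ‖a‖ := rfl

theorem rho_mem (i : ℕ) (F : Tw i) : rho i F ∈ UAlg.topologicalClosure :=
  StarSubalgebra.le_topologicalClosure UAlg ⟨i, F, rfl⟩

/-- the inclusion of the finite stage `i` -/
noncomputable def iota (i : ℕ) : Tw i →⋆ₐ[ℂ] AA where
  toFun F := ⟨rho i F, rho_mem i F⟩
  map_one' := Subtype.ext (map_one (rho i))
  map_mul' F G := Subtype.ext (map_mul (rho i) F G)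
  map_zero' := Subtype.ext (map_zero (rho i))
  map_add' F G := Subtype.ext (map_add (rho i) F G)
  commutes' c := Subtype.ext (AlgHomClass.commutes (rho i) c)
  map_star' F := Subtype.ext (map_star (rho i) F)

theorem valA_iota (i : ℕ) (F : Tw i) : valA (iota i F) = rho i F := rfl

theorem norm_iota (i : ℕ) (F : Tw i) : ‖iota i F‖ = ‖rho i F‖ := rfl

theorem iota_injective (i : ℕ) : Function.Injective (iota i) := fun _ _ h =>
  rho_injective i (congrArg valA h)

theorem iota_up (i : ℕ) (F : Tw i) : iota (i + 1) (up i (xs i) F) = iota i F :=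
  Subtype.ext (rho_up i F)

/-- the finite stages as subalgebras of the algebra -/
noncomputable def DD (i : ℕ) : StarSubalgebra ℂ AA := (iota i).range

theorem iota_mem (i : ℕ) (F : Tw i) : iota i F ∈ DD i := ⟨F, rfl⟩

theorem DD_mono : Monotone DD := by
  apply monotone_nat_of_le_succ
  rintro i _ ⟨F, rfl⟩
  exact ⟨up i (xs i) F, iota_up i F⟩

theorem exists_iota_eq {i l : ℕ} (h : i ≤ l) (F : Tw i) : ∃ G : Tw l, iota l G = iota i F :=
  DD_mono h (iota_mem i F)

theorem exists_iota_near (a : AA) {ε : ℝ} (hε : 0 < ε) : ∃ (i : ℕ) (F : Tw i),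
    ‖a - iota i F‖ < ε := by
  have ha : (a.1 : H2 →L[ℂ] H2) ∈ closure (UAlg : Set (H2 →L[ℂ] H2)) := by
    rw [← StarSubalgebra.topologicalClosure_coe]
    exact a.2
  obtain ⟨T, ⟨i, F, hF⟩, hT⟩ := Metric.mem_closure_iff.mp ha ε hε
  refine ⟨i, F, ?_⟩
  rw [← norm_valA, map_sub, valA_iota, ← dist_eq_norm]
  have hF' : rho i F = T := hF
  rw [hF']
  exact hT

/-- the inverse of `iota` on its range -/
noncomputable def invI (i : ℕ) (d : DD i) : Tw i := (d.2 : ∃ F, (iota i).toAlgHom F = d.1).choose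

theorem iota_invI (i : ℕ) (d : DD i) : iota i (invI i d) = d.1 :=
  (d.2 : ∃ F, (iota i).toAlgHom F = d.1).choose_spec

theorem invI_iota (i : ℕ) (F : Tw i) (h : iota i F ∈ DD i) : invI i ⟨iota i F, h⟩ = F :=
  iota_injective i (iota_invI i _)

/-- the inverse of `iota` on its range, as a homomorphism -/
noncomputable def invH (i : ℕ) : DD i →⋆ₙₐ[ℂ] Tw i where
  toFun := invI i
  map_smul' c d := iota_injective i (by
    rw [iota_invI, map_smul, iota_invI]; rfl)
  map_zero' := iota_injective i (by rw [iota_invI, map_zero]; rfl)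
  map_add' a b := iota_injective i (by
    rw [iota_invI, map_add, iota_invI, iota_invI]; rfl)
  map_mul' a b := iota_injective i (by
    rw [iota_invI, map_mul, iota_invI, iota_invI]; rfl)
  map_star' a := iota_injective i (by
    rw [iota_invI, map_star, iota_invI]; rfl)

/-- coordinates on the finite stages -/
noncomputable def PsiA (i : ℕ) : DD i →⋆ₙₐ[ℂ] Matrix (KK i) (KK i) C(XX, ℂ) :=
  (TwPsi i).comp (invH i)

theorem PsiA_apply (i : ℕ) (d : DD i) : PsiA i d = TwPsi i (invI i d) := rfl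

theorem PsiA_iota (i : ℕ) (F : Tw i) (h : iota i F ∈ DD i) :
    PsiA i ⟨iota i F, h⟩ = TwPsi i F := by
  rw [PsiA_apply, invI_iota]

theorem PsiA_injective (i : ℕ) : Function.Injective (PsiA i) := by
  intro a b h
  have h1 := TwPsi_inj i h
  apply Subtype.ext
  rw [← iota_invI i a, ← iota_invI i b]
  exact congrArg (iota i) h1

theorem invI_one (i : ℕ) : invI i 1 = 1 := iota_injective i (by rw [iota_invI, map_one]; rfl)

theorem PsiA_one (i : ℕ) :
    PsiA i 1 = Matrix.blockDiagonal' fun k : Fin (2 ^ i) => ee (Nat.size k) := by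
  rw [PsiA_apply, invI_one, TwPsi_one]

theorem PsiA_range (i : ℕ) (M : Matrix (KK i) (KK i) C(XX, ℂ))
    (hM : PsiA i 1 * M * PsiA i 1 = M) : ∃ d, PsiA i d = M := by
  rw [PsiA_apply, invI_one] at hM
  obtain ⟨F, hF⟩ := TwPsi_range i M hM
  exact ⟨⟨iota i F, iota_mem i F⟩, by rw [PsiA_iota, hF]⟩

theorem norm_le_entries {α : Type*} [Fintype α] [DecidableEq α] : ∃ C : ℝ, 0 ≤ C ∧
    ∀ (M : Matrix α α ℂ) (c : ℝ), (∀ a b, ‖M a b‖ ≤ c) → ‖M‖ ≤ C * c := by
  refine ⟨∑ a : α, ∑ b : α, ‖(Matrix.single a b (1 : ℂ) : Matrix α α ℂ)‖,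
    Finset.sum_nonneg fun _ _ => Finset.sum_nonneg fun _ _ => norm_nonneg _, ?_⟩
  intro M c hM
  conv_lhs => rw [Matrix.matrix_eq_sum_single M]
  refine (norm_sum_le _ _).trans ?_
  rw [Finset.sum_mul]
  refine Finset.sum_le_sum fun a _ => ?_
  refine (norm_sum_le _ _).trans ?_
  rw [Finset.sum_mul]
  refine Finset.sum_le_sum fun b _ => ?_
  have h1 : (Matrix.single a b (M a b) : Matrix α α ℂ) = M a b • Matrix.single a b (1 : ℂ) := by
    rw [Matrix.smul_single, smul_eq_mul, mul_one]
  rw [h1, norm_smul, mul_comm]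
  exact mul_le_mul_of_nonneg_left (hM a b) (norm_nonneg _)

/-- A `*`-homomorphism that is bounded for the C*-norms is contractive. -/
theorem contractive_of_bounded {D B : Type*} [NonUnitalNormedRing D] [StarRing D] [CStarRing D]
    [NonUnitalNormedRing B] [StarRing B] [CStarRing B] (f : D → B) (hmul : ∀ a b, f (a * b) = f a * f b)
    (hstar : ∀ a, f (star a) = star (f a)) (C : ℝ) (hC : ∀ a, ‖f a‖ ≤ C * ‖a‖) (a : D) :
    ‖f a‖ ≤ ‖a‖ := by
  have key : ∀ (n : ℕ) (h : D), star h = h → ‖f h‖ ^ (2 ^ n) ≤ C * ‖h‖ ^ (2 ^ n) := by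
    intro n
    induction n with
    | zero => intro h _; simpa using hC h
    | succ n ih =>
      intro h hh
      have h1 : ‖h * h‖ = ‖h‖ * ‖h‖ := by
        have := CStarRing.norm_star_mul_self (x := h)
        rw [hh] at this
        exact this
      have h2 : ‖f (h * h)‖ = ‖f h‖ * ‖f h‖ := by
        rw [hmul]
        have := CStarRing.norm_star_mul_self (x := f h)
        rw [← hstar, hh] at this
        exact this
      have h3 := ih (h * h) (by rw [star_mul, hh])
      rw [h1, h2] at h3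
      rw [pow_succ, mul_comm (2 ^ n) 2, pow_mul, pow_mul, sq, sq]
      exact h3
  have hself : ∀ h : D, star h = h → ‖f h‖ ≤ ‖h‖ := by
    intro h hh
    by_contra hlt
    push Not at hlt
    have hpos : 0 < ‖f h‖ := lt_of_le_of_lt (norm_nonneg _) hlt
    rcases (norm_nonneg h).eq_or_lt with h0 | h0
    · have := hC h
      rw [← h0, mul_zero] at this
      linarith
    · have h1 : 1 < ‖f h‖ / ‖h‖ := (one_lt_div h0).mpr hlt
      obtain ⟨m, hm⟩ := pow_unbounded_of_one_lt C h1
      have h2 := key m h hh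
      have h3 : (‖f h‖ / ‖h‖) ^ (2 ^ m) ≤ C := by
        rw [div_pow, div_le_iff₀ (pow_pos h0 _)]
        exact h2
      have h4 : (‖f h‖ / ‖h‖) ^ m ≤ (‖f h‖ / ‖h‖) ^ (2 ^ m) :=
        pow_le_pow_right₀ h1.le (Nat.lt_two_pow_self).le
      linarith
  have h1 := hself (star a * a) (by rw [star_mul, star_star])
  rw [hmul, hstar, CStarRing.norm_star_mul_self, CStarRing.norm_star_mul_self] at h1
  exact (mul_self_le_mul_self_iff (norm_nonneg _) (norm_nonneg _)).mpr h1

theorem PsiA_norm (i : ℕ) (d : DD i) (x : XX) : ‖evM x (PsiA i d)‖ ≤ ‖d‖ := by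
  obtain ⟨C, hC0, hC⟩ := norm_le_entries (α := KK i)
  refine contractive_of_bounded (fun d : DD i => evM x (PsiA i d)) ?_ ?_ C ?_ d
  · intro a b
    show evM x (PsiA i (a * b)) = _
    rw [map_mul, evM_mul]
  · intro a
    show evM x (PsiA i (star a)) = _
    rw [map_star]
    rfl
  · intro d
    apply hC
    intro a b
    have h1 : ‖d‖ = ‖rho i (invI i d)‖ := by
      rw [← norm_iota, iota_invI]; rfl
    rw [h1, PsiA_apply]
    exact TwPsi_norm_entry i _ (dense_xs i) (invI i d) _
      (fun y hy k l => norm_apply_le_rho i _ y hy k l) x a b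

end Pool.Agent.Helper75.KT
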