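import Pool.Agent.Helper28.KTAlgebra2

/-!
# The simple AH algebra, part 3: the inclusion of the scalar functions
-/

set_option linter.unusedSectionVars false

namespace Pool.Agent.Helper75.KT

open Matrix Filter Topology CPd
open scoped Kronecker ComplexOrder Matrix.Norms.L2Operator

/-- the unital inclusion of `C(XX)` -/
noncomputable def embA : C(XX, ℂ) →⋆ₐ[ℂ] AA := (iota 0).comp scal

theorem embA_apply (f : C(XX, ℂ)) : embA f = iota 0 (scal f) := rfl

theorem embA_mem (f : C(XX, ℂ)) (i : ℕ) : embA f ∈ DD i :=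
  DD_mono (Nat.zero_le i) (iota_mem 0 _)

/-- the image of a scalar function in stage `i` -/
noncomputable def FFi (f : C(XX, ℂ)) : (i : ℕ) → Tw i
  | 0 => scal f
  | i + 1 => up i (xs i) (FFi f i)

theorem iota_FFi (f : C(XX, ℂ)) (i : ℕ) : iota i (FFi f i) = embA f := by
  induction i with
  | zero => rfl
  | succ i ih => rw [← ih]; exact iota_up i (FFi f i)

/-- indices of the evaluation points of the scalar functions -/
def PI (k : ℕ) : ℕ :=
  if k = 0 then 0
  else if k = 2 ^ Nat.log 2 k then Nat.log 2 k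
  else PI (k - 2 ^ Nat.log 2 k)
termination_by k
decreasing_by
  have : 0 < 2 ^ Nat.log 2 k := by positivity
  omega

/-- evaluation points of the scalar functions -/
noncomputable def PQ (k : ℕ) : XX := xs (PI k)

theorem log_eq {i k : ℕ} (h1 : 2 ^ i ≤ k) (h2 : k < 2 ^ (i + 1)) : Nat.log 2 k = i :=
  (Nat.log_eq_iff (Or.inr ⟨by norm_num, by have : 0 < 2 ^ i := by positivity
                                           omega⟩)).mpr ⟨h1, h2⟩

theorem PQ_two_pow (i : ℕ) : PQ (2 ^ i) = xs i := by
  have h : Nat.log 2 (2 ^ i) = i := Nat.log_pow (by norm_num) i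
  unfold PQ
  rw [PI, if_neg (by positivity), h, if_pos rfl]

theorem PQ_add {i k : ℕ} (h1 : 2 ^ i < k) (h2 : k < 2 ^ (i + 1)) : PQ k = PQ (k - 2 ^ i) := by
  have h : Nat.log 2 k = i := log_eq h1.le h2
  unfold PQ
  rw [PI, if_neg (by omega), h, if_neg (by omega)]

theorem FFi_apply (f : C(XX, ℂ)) (i : ℕ) : ∀ (x : XX) (k l : Fin (2 ^ i)),
    (FFi f i).1 x k l = if k = l then (if k.1 = 0 then f x else f (PQ k)) else 0 := by
  induction i with
  | zero =>
    intro x k l
    have hk : k.1 = 0 := by have := k.2; simp at this; omega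
    have hl : l.1 = 0 := by have := l.2; simp at this; omega
    have hkl : k = l := Fin.ext (by rw [hk, hl])
    rw [if_pos hkl, if_pos hk]
    exact scal_apply f x k l
  | succ i ih =>
    intro x k l
    have hpow : 2 ^ (i + 1) = 2 ^ i * 2 := pow_succ 2 i
    have hk2 := k.2
    have hl2 := l.2
    show (up i (xs i) (FFi f i)).1 x k l = _
    rw [up_apply]
    by_cases h1 : k.1 < 2 ^ i ∧ l.1 < 2 ^ i
    · rw [dif_pos h1, ih]
      simp only [Fin.mk.injEq, Fin.ext_iff]
    · rw [dif_neg h1]
      by_cases h2 : 2 ^ i ≤ k.1 ∧ 2 ^ i ≤ l.1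
      · rw [if_pos h2, ih]
        by_cases hkl : k = l
        · subst hkl
          rw [if_pos rfl, if_pos rfl]
          have hk0 : k.1 ≠ 0 := by have : 0 < 2 ^ i := by positivity
                                   omega
          rw [if_neg hk0]
          by_cases h3 : k.1 = 2 ^ i
          · rw [if_pos (by simp only; omega), h3, PQ_two_pow]
          · rw [if_neg (by simp only; omega)]
            rw [PQ_add (i := i) (k := k.1) (by omega) hk2]
        · rw [if_neg hkl, if_neg]
          intro h
          apply hkl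
          have := congrArg Fin.val h
          simp only at this
          exact Fin.ext (by omega)
      · rw [if_neg h2, if_neg]
        rintro rfl
        omega

theorem PsiA_emb (i : ℕ) (f : C(XX, ℂ)) :
    PsiA i ⟨embA f, embA_mem f i⟩ = Matrix.blockDiagonal' fun k : Fin (2 ^ i) =>
      if (k : ℕ) = 0 then f • ee (Nat.size k) else (f (PQ k)) • ee (Nat.size k) := by
  have h : (⟨embA f, embA_mem f i⟩ : DD i) = ⟨iota i (FFi f i), iota_mem i _⟩ :=
    Subtype.ext (iota_FFi f i).symm
  rw [h, PsiA_iota]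
  ext ⟨k, r⟩ ⟨l, s⟩ x
  rw [TwPsi_apply, FFi_apply]
  by_cases hkl : k = l
  · subst hkl
    rw [if_pos rfl, Matrix.blockDiagonal'_apply_eq, ← UU_mul]
    by_cases hk : k.1 = 0
    · rw [if_pos hk, if_pos hk]
      rfl
    · rw [if_neg hk, if_neg hk]
      rfl
  · rw [if_neg hkl, Matrix.blockDiagonal'_apply_ne _ _ _ hkl, zero_mul]
    rfl

end Pool.Agent.Helper75.KT
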