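import Pool.Agent.Helper28.KTAlgebra3

/-!
# The simple AH algebra, part 4: simplicity
-/

set_option linter.unusedSectionVars false

namespace Pool.Agent.Helper75.KT

open Matrix Filter Topology CPd
open scoped Kronecker ComplexOrder Matrix.Norms.L2Operator

theorem continuous_UU {j j' : ℕ} (h : j = j') (r : RR j) (s : RR j') :
    Continuous fun x => UU j x r * star (UU j' x s) := by
  subst h
  simp only [← UU_mul]
  exact (ee j r s).continuous

theorem size_eq {l k : ℕ} (h1 : 2 ^ l ≤ k) (h2 : k < 2 ^ (l + 1)) : Nat.size k = l + 1 := by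
  apply le_antisymm
  · exact Nat.size_le.mpr h2
  · exact Nat.lt_size.mpr h1

theorem sum_top {M : Type*} [AddCommMonoid M] (l : ℕ) (f : Fin (2 ^ (l + 1)) → M)
    (hf : ∀ k, k.1 < 2 ^ l → f k = 0) :
    ∑ k, f k = ∑ j : Fin (2 ^ l), f ⟨2 ^ l + j, by have := j.2; have := pow_succ 2 l; omega⟩ := by
  have hpow : 2 ^ l + 2 ^ l = 2 ^ (l + 1) := by rw [pow_succ]; ring
  rw [← (finCongr hpow).sum_comp, Fin.sum_univ_add]
  rw [Finset.sum_eq_zero, zero_add]
  · rfl
  · intro j _
    apply hf
    simp

/-- the vector `u` placed in the second half -/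
noncomputable def hat (l : ℕ) (u : Fin (2 ^ l) → ℂ) (k : Fin (2 ^ (l + 1))) : ℂ :=
  if h : 2 ^ l ≤ k.1 then u ⟨k.1 - 2 ^ l, by have := k.2; have := pow_succ 2 l; omega⟩ else 0

theorem hat_low {l : ℕ} (u : Fin (2 ^ l) → ℂ) {k : Fin (2 ^ (l + 1))} (h : k.1 < 2 ^ l) :
    hat l u k = 0 := by
  unfold hat
  rw [dif_neg (by omega)]

theorem hat_top {l : ℕ} (u : Fin (2 ^ l) → ℂ) (j : Fin (2 ^ l))
    (h : 2 ^ l + j.1 < 2 ^ (l + 1)) : hat l u ⟨2 ^ l + j, h⟩ = u j := by
  unfold hat
  rw [dif_pos (by simp)]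
  congr 1
  apply Fin.ext
  simp

theorem hat_norm {l : ℕ} (u : Fin (2 ^ l) → ℂ) (hu : ∑ s, u s * star (u s) = 1) :
    ∑ k, star (hat l u k) * hat l u k = 1 := by
  rw [sum_top l _ (fun k hk => by rw [hat_low u hk, mul_zero]), ← hu]
  apply Finset.sum_congr rfl
  intro j _
  rw [hat_top, mul_comm]

/-- the projection onto `hat u` -/
noncomputable def hh (l : ℕ) (u : Fin (2 ^ l) → ℂ) : Tw (l + 1) :=
  ⟨fun _ => Matrix.of fun k m => hat l u k * star (hat l u m), by
    rw [mem_Tw]
    intro k m r s
    simp only [Matrix.of_apply]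
    by_cases hk : k.1 < 2 ^ l
    · simp only [hat_low u hk, zero_mul]
      exact continuous_const
    by_cases hm : m.1 < 2 ^ l
    · simp only [hat_low u hm, star_zero, mul_zero, zero_mul]
      exact continuous_const
    · refine continuous_const.mul (continuous_UU ?_ r s)
      rw [size_eq (by omega) k.2, size_eq (by omega) m.2]⟩

theorem hh_apply (l : ℕ) (u : Fin (2 ^ l) → ℂ) (x : XX) (k m : Fin (2 ^ (l + 1))) :
    (hh l u).1 x k m = hat l u k * star (hat l u m) := rfl

theorem Tw_ext {i : ℕ} {F G : Tw i} (h : ∀ x k l, F.1 x k l = G.1 x k l) : F = G := by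
  apply Subtype.ext
  funext x
  ext k l
  exact h x k l

theorem Tw_mul_apply {i : ℕ} (F G : Tw i) (x : XX) (k l : Fin (2 ^ i)) :
    (F * G).1 x k l = ∑ m, F.1 x k m * G.1 x m l := by
  have h : (F * G).1 x = F.1 x * G.1 x := rfl
  rw [h, Matrix.mul_apply]

theorem Tw_star_apply {i : ℕ} (F : Tw i) (x : XX) (k l : Fin (2 ^ i)) :
    (star F).1 x k l = star (F.1 x l k) := rfl

theorem Tw_smul_apply {i : ℕ} (c : ℂ) (F : Tw i) (x : XX) (k l : Fin (2 ^ i)) :
    (c • F).1 x k l = c * F.1 x k l := rfl

theorem hh_mul {l : ℕ} (u : Fin (2 ^ l) → ℂ) (hu : ∑ s, u s * star (u s) = 1) :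
    hh l u * hh l u = hh l u := by
  apply Tw_ext
  intro x k m
  rw [Tw_mul_apply]
  simp only [hh_apply]
  have : ∀ p, hat l u k * star (hat l u p) * (hat l u p * star (hat l u m)) =
      (hat l u k * star (hat l u m)) * (star (hat l u p) * hat l u p) := fun p => by ring
  simp only [this]
  rw [← Finset.mul_sum, hat_norm u hu, mul_one]

theorem hh_star {l : ℕ} (u : Fin (2 ^ l) → ℂ) : star (hh l u) = hh l u := by
  apply Tw_ext
  intro x k m
  rw [Tw_star_apply, hh_apply, hh_apply, star_mul, star_star]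

theorem hh_form {l : ℕ} (u : Fin (2 ^ l) → ℂ) (G : Tw l) :
    hh l u * up l (xs l) G * hh l u =
      (∑ s, ∑ t, star (u s) * G.1 (xs l) s t * u t) • hh l u := by
  apply Tw_ext
  intro x k m
  rw [Tw_smul_apply, Tw_mul_apply]
  simp only [Tw_mul_apply, hh_apply]
  have h1 : ∀ q, (∑ p, hat l u k * star (hat l u p) * (up l (xs l) G).1 x p q) *
      (hat l u q * star (hat l u m)) = (hat l u k * star (hat l u m)) *
      ∑ p, star (hat l u p) * (up l (xs l) G).1 x p q * hat l u q := by
    intro q
    rw [Finset.sum_mul, Finset.mul_sum]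
    apply Finset.sum_congr rfl
    intro p _
    ring
  simp only [h1]
  rw [← Finset.mul_sum, mul_comm]
  congr 1
  rw [sum_top l _ (fun q hq => by simp only [hat_low u hq, mul_zero, Finset.sum_const_zero]),
    Finset.sum_comm]
  rw [sum_top l _ (fun p hp => by
    simp only [hat_low u hp, star_zero, zero_mul, Finset.sum_const_zero])]
  apply Finset.sum_congr rfl
  intro s _
  apply Finset.sum_congr rfl
  intro t _
  rw [hat_top, hat_top, up_apply, dif_neg (by simp), if_pos (by simp)]
  simp only [Nat.add_sub_cancel_left, Fin.eta]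

/-- the elements moving the range of `hat u` to all other directions -/
noncomputable def gg (l : ℕ) (u : Fin (2 ^ l) → ℂ) (k : Fin (2 ^ (l + 1))) (r : RR (Nat.size k))
    (s : RR (l + 1)) : Tw (l + 1) :=
  ⟨fun x => Matrix.of fun k' m => if k' = k then
      star (UU (Nat.size k) x r) * UU (l + 1) x s * star (hat l u m) else 0, by
    rw [mem_Tw]
    intro k' m r' s'
    simp only [Matrix.of_apply]
    by_cases hk : k' = k
    · subst hk
      simp only [if_true]
      by_cases hm : m.1 < 2 ^ l
      · simp only [hat_low u hm, star_zero, mul_zero, zero_mul]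
        exact continuous_const
      · have hm2 : l + 1 = Nat.size m := (size_eq (by omega) m.2).symm
        have : (fun x => star (UU (Nat.size k') x r) * UU (l + 1) x s * star (hat l u m) *
            (UU (Nat.size k') x r' * star (UU (Nat.size m) x s'))) = fun x =>
            star (hat l u m) * ((UU (Nat.size k') x r' * star (UU (Nat.size k') x r)) *
              (UU (l + 1) x s * star (UU (Nat.size m) x s'))) := by
          funext x; ring
        rw [this]
        exact continuous_const.mul ((continuous_UU rfl r' r).mul (continuous_UU hm2 s s'))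
    · simp only [if_neg hk, zero_mul]
      exact continuous_const⟩

theorem gg_apply (l : ℕ) (u : Fin (2 ^ l) → ℂ) (k : Fin (2 ^ (l + 1))) (r : RR (Nat.size k))
    (s : RR (l + 1)) (x : XX) (k' m : Fin (2 ^ (l + 1))) :
    (gg l u k r s).1 x k' m = if k' = k then
      star (UU (Nat.size k) x r) * UU (l + 1) x s * star (hat l u m) else 0 := rfl

theorem gg_mul_hh {l : ℕ} (u : Fin (2 ^ l) → ℂ) (hu : ∑ s, u s * star (u s) = 1)
    (k : Fin (2 ^ (l + 1))) (r : RR (Nat.size k)) (s : RR (l + 1)) :
    gg l u k r s * hh l u = gg l u k r s := by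
  apply Tw_ext
  intro x k' m
  rw [Tw_mul_apply]
  simp only [gg_apply, hh_apply]
  by_cases hk : k' = k
  · simp only [if_pos hk]
    have : ∀ p, star (UU (Nat.size k) x r) * UU (l + 1) x s * star (hat l u p) *
        (hat l u p * star (hat l u m)) = (star (UU (Nat.size k) x r) * UU (l + 1) x s *
          star (hat l u m)) * (star (hat l u p) * hat l u p) := fun p => by ring
    simp only [this]
    rw [← Finset.mul_sum, hat_norm u hu, mul_one]
  · simp only [if_neg hk, zero_mul, Finset.sum_const_zero]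

theorem Tw_sum_apply {i : ℕ} {σ : Type*} (S : Finset σ) (F : σ → Tw i) (x : XX)
    (k l : Fin (2 ^ i)) : (∑ a ∈ S, F a).1 x k l = ∑ a ∈ S, (F a).1 x k l := by
  classical
  induction S using Finset.induction_on with
  | empty => rfl
  | insert a S ha ih =>
    rw [Finset.sum_insert ha, Finset.sum_insert ha, ← ih]
    rfl

theorem gg_sum {l : ℕ} (u : Fin (2 ^ l) → ℂ) (hu : ∑ s, u s * star (u s) = 1) :
    ∑ k : Fin (2 ^ (l + 1)), ∑ r : RR (Nat.size k), ∑ s : RR (l + 1),
      gg l u k r s * star (gg l u k r s) = 1 := by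
  apply Tw_ext
  intro x p q
  simp only [Tw_sum_apply, Tw_mul_apply, Tw_star_apply, gg_apply]
  have h1 : ∀ (k : Fin (2 ^ (l + 1))) (r : RR (Nat.size k)) (s : RR (l + 1)),
      (∑ m, (if p = k then star (UU (Nat.size k) x r) * UU (l + 1) x s * star (hat l u m) else 0) *
        star (if q = k then star (UU (Nat.size k) x r) * UU (l + 1) x s * star (hat l u m)
          else 0)) = (if p = k ∧ q = k then (UU (Nat.size k) x r * star (UU (Nat.size k) x r)) *
            (UU (l + 1) x s * star (UU (l + 1) x s)) else 0) := by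
    intro k r s
    by_cases hp : p = k
    · by_cases hq : q = k
      · simp only [if_pos hp, if_pos hq, if_pos (And.intro hp hq), star_mul, star_star]
        have : ∀ m, star (UU (Nat.size k) x r) * UU (l + 1) x s * star (hat l u m) *
            (hat l u m * (star (UU (l + 1) x s) * UU (Nat.size k) x r)) =
            ((UU (Nat.size k) x r * star (UU (Nat.size k) x r)) *
            (UU (l + 1) x s * star (UU (l + 1) x s))) * (star (hat l u m) * hat l u m) :=
          fun m => by ring
        simp only [this]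
        rw [← Finset.mul_sum, hat_norm u hu, mul_one]
      · simp only [if_neg hq, star_zero, mul_zero, Finset.sum_const_zero]
        rw [if_neg (fun h => hq h.2)]
    · simp only [if_neg hp, zero_mul, Finset.sum_const_zero]
      rw [if_neg (fun h => hp h.1)]
  simp only [h1]
  have h2 : ∀ k : Fin (2 ^ (l + 1)), (∑ r : RR (Nat.size k), ∑ s : RR (l + 1),
      (if p = k ∧ q = k then (UU (Nat.size k) x r * star (UU (Nat.size k) x r)) *
            (UU (l + 1) x s * star (UU (l + 1) x s)) else 0)) = if p = k ∧ q = k then 1 else 0 := by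
    intro k
    by_cases h : p = k ∧ q = k
    · simp only [if_pos h]
      simp only [← Finset.mul_sum, UU_norm, mul_one]
    · simp only [if_neg h, Finset.sum_const_zero]
  simp only [h2]
  have h3 : (1 : Tw (l + 1)).1 x p q = if p = q then 1 else 0 := by
    have : (1 : Tw (l + 1)).1 x = 1 := rfl
    rw [this, Matrix.one_apply]
  rw [h3]
  by_cases hpq : p = q
  · subst hpq
    simp
  · rw [if_neg hpq]
    apply Finset.sum_eq_zero
    intro k _
    rw [if_neg]
    rintro ⟨rfl, h⟩
    exact hpq h.symm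

theorem ent_sub (S T : H2 →L[ℂ] H2) (s t : ℕ) : ent (S - T) s t = ent S s t - ent T s t := by
  have h : S - T = S + (-1 : ℂ) • T := by rw [neg_one_smul, sub_eq_add_neg]
  rw [h, ent_add, ent_smul]
  ring

theorem norm_le_one_of_proj {A : Type*} [CStarAlgebra A] {p : A} (h1 : p * p = p)
    (h2 : star p = p) : ‖p‖ ≤ 1 := by
  have h := CStarRing.norm_star_mul_self (x := p)
  rw [h2, h1] at h
  by_contra hlt
  push Not at hlt
  nlinarith [norm_nonneg p]

theorem one_mem_of_ne_zero (I : TwoSidedIdeal AA) (c : AA) (hc : c ∈ I) (hc0 : c ≠ 0) :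
    (1 : AA) ∈ I := by
  -- normalise
  obtain ⟨c', hc', hn⟩ : ∃ c' ∈ I, ‖c'‖ = 1 := by
    refine ⟨((‖c‖⁻¹ : ℝ) : ℂ) • c, ?_, ?_⟩
    · rw [Algebra.smul_def]
      exact I.mul_mem_left _ _ hc
    · rw [norm_smul, Complex.norm_real, norm_inv, norm_norm,
        inv_mul_cancel₀ (norm_ne_zero_iff.mpr hc0)]
  have ha : star c' * c' ∈ I := I.mul_mem_left _ _ hc'
  obtain ⟨l₀, hl₀⟩ := exists_fin_vec (valA c') (by rw [norm_valA, hn])
  obtain ⟨i, F, hF⟩ := exists_iota_near (star c' * c') (by norm_num : (0 : ℝ) < 1 / 4)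
  obtain ⟨l, hl, hxl⟩ := exists_xs_eq_zero (max l₀ i)
  obtain ⟨G, hG⟩ := exists_iota_eq (le_trans (le_max_right l₀ i) hl) F
  obtain ⟨u, hu, hre⟩ := hl₀ l (le_trans (le_max_left l₀ i) hl)
  set z : ℂ := ∑ s, ∑ t, star (u s) * G.1 (xs l) s t * u t with hz
  -- the numerical range estimate
  have hzn : (1 : ℝ) / 2 < ‖z‖ := by
    have h1 := norm_form_le (valA (star c' * c' - iota l G)) (2 ^ l) u hu
    have h2 : (∑ s : Fin (2 ^ l), ∑ t : Fin (2 ^ l),
        star (u s) * ent (valA (star c' * c' - iota l G)) s t * u t) =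
        (∑ s : Fin (2 ^ l), ∑ t : Fin (2 ^ l),
          star (u s) * ent (star (valA c') * valA c') s t * u t) - z := by
      rw [hz, ← Finset.sum_sub_distrib]
      apply Finset.sum_congr rfl
      intro s _
      rw [← Finset.sum_sub_distrib]
      apply Finset.sum_congr rfl
      intro t _
      have h3 : ent (rho l G) s t = G.1 (xs l) s t := by
        have h4 := rhoM_block l G.1 0 s t
        rw [zero_mul, zero_add, zero_add, PP_zero, ← hxl] at h4
        rw [ent_rho, h4]
      rw [map_sub, ent_sub, valA_iota, h3, map_mul, map_star]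
      ring
    rw [h2, norm_valA, hG] at h1
    have h5 : ‖(∑ s : Fin (2 ^ l), ∑ t : Fin (2 ^ l),
          star (u s) * ent (star (valA c') * valA c') s t * u t) - z‖ < 1 / 4 :=
      lt_of_le_of_lt h1 hF
    have h6 := Complex.abs_re_le_norm ((∑ s : Fin (2 ^ l), ∑ t : Fin (2 ^ l),
          star (u s) * ent (star (valA c') * valA c') s t * u t) - z)
    rw [Complex.sub_re] at h6
    have h7 := abs_le.mp h6
    have h8 := Complex.re_le_norm z
    linarith [h7.2]
  have hz0 : z ≠ 0 := by
    intro h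
    rw [h, norm_zero] at hzn
    linarith
  -- the projection
  set H : AA := iota (l + 1) (hh l u) with hH
  have hHH : H * H = H := by rw [hH, ← map_mul, hh_mul u hu]
  have hHs : star H = H := by rw [hH, ← map_star, hh_star]
  have hHn : ‖H‖ ≤ 1 := norm_le_one_of_proj hHH hHs
  have hform : H * iota l G * H = z • H := by
    rw [← iota_up l G, hH, ← map_mul, ← map_mul, hh_form, map_smul]
  set a : AA := star c' * c' with hadef
  set e : AA := z⁻¹ • (H * (a - iota l G) * H) with he
  have hen : ‖e‖ < 1 := by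
    have h1 : ‖H * (a - iota l G) * H‖ ≤ 1 / 4 := by
      calc ‖H * (a - iota l G) * H‖ ≤ ‖H * (a - iota l G)‖ * ‖H‖ := norm_mul_le _ _
        _ ≤ ‖H * (a - iota l G)‖ * 1 := by gcongr
        _ ≤ (‖H‖ * ‖a - iota l G‖) * 1 := by gcongr; exact norm_mul_le _ _
        _ ≤ (1 * (1 / 4)) * 1 := by
            gcongr
            rw [hG]; exact hF.le
        _ = 1 / 4 := by norm_num
    rw [he, norm_smul, norm_inv]
    have h2 : ‖z‖⁻¹ < 2 := by
      rw [inv_lt_comm₀ (by linarith) (by norm_num)]
      linarith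
    have h3 : 0 ≤ ‖z‖⁻¹ := inv_nonneg.mpr (norm_nonneg z)
    nlinarith only [h2, h1, h3, norm_nonneg (H * (a - iota l G) * H)]
  have hHe : H * e = e := by
    rw [he, mul_smul_comm, ← mul_assoc, ← mul_assoc, hHH]
  have hHaH : z⁻¹ • (H * a * H) = H * (1 + e) := by
    have h1 : z⁻¹ • (H * a * H) = e + z⁻¹ • (H * iota l G * H) := by
      rw [he, ← smul_add]
      congr 1
      rw [mul_sub, sub_mul, sub_add_cancel]
    rw [h1, hform, smul_smul, inv_mul_cancel₀ hz0, one_smul, mul_add, mul_one, hHe, add_comm]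
  have hmem1 : H * (1 + e) ∈ I := by
    rw [← hHaH, Algebra.smul_def]
    exact I.mul_mem_left _ _ (I.mul_mem_right _ _ (I.mul_mem_left _ _ ha))
  have hHI : H ∈ I := by
    have hunit : (1 + e) * (↑(Units.oneSub (-e) (by rwa [norm_neg]))⁻¹ : AA) = 1 := by
      have h1 : (1 + e) = (↑(Units.oneSub (-e) (by rwa [norm_neg])) : AA) := by
        rw [Units.val_oneSub, sub_neg_eq_add]
      rw [h1, Units.mul_inv]
    have h2 := I.mul_mem_right _ (↑(Units.oneSub (-e) (by rwa [norm_neg]))⁻¹ : AA) hmem1
    rw [mul_assoc, hunit, mul_one] at h2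
    exact h2
  -- conclusion
  have h1 : (1 : AA) = ∑ k : Fin (2 ^ (l + 1)), ∑ r : RR (Nat.size k), ∑ s : RR (l + 1),
      iota (l + 1) (gg l u k r s) * star (iota (l + 1) (gg l u k r s)) := by
    rw [← map_one (iota (l + 1)), ← gg_sum u hu]
    simp only [map_sum, map_mul, map_star]
  rw [h1]
  refine sum_mem fun k _ => sum_mem fun r _ => sum_mem fun s _ => ?_
  apply I.mul_mem_right
  rw [← gg_mul_hh u hu k r s, map_mul]
  exact I.mul_mem_left _ _ hHI

theorem simple_AA : IsSimpleCStar AA := by
  constructor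
  · refine ⟨⟨0, 1, ?_⟩⟩
    intro h
    have h1 := congrArg (fun a : AA => ent (valA a) 0 0) h
    simp only [map_zero, map_one] at h1
    rw [ent_one, if_pos rfl] at h1
    have h0 : ent (0 : H2 →L[ℂ] H2) 0 0 = 0 := by
      have := ent_smul 0 (0 : H2 →L[ℂ] H2) 0 0
      rw [zero_smul, zero_mul] at this
      exact this
    rw [h0] at h1
    exact zero_ne_one h1
  · intro I _
    by_cases h : ∃ c ∈ I, c ≠ 0
    · obtain ⟨c, hc, hc0⟩ := h
      right
      exact (TwoSidedIdeal.one_mem_iff I).mp (one_mem_of_ne_zero I c hc hc0)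
    · left
      push Not at h
      ext x
      rw [TwoSidedIdeal.mem_bot]
      exact ⟨fun hx => h x hx, fun hx => hx ▸ I.zero_mem⟩

/-- The construction of the algebra. -/
theorem exists_algData : Nonempty AlgData :=
  ⟨{  A := AA
      simple := simple_AA
      D := DD
      mono := DD_mono
      dense := fun a ε hε => by
        obtain ⟨i, F, h⟩ := exists_iota_near a hε
        exact ⟨i, iota i F, iota_mem i F, h⟩
      Ψ := PsiA
      Ψ_inj := PsiA_injective
      Ψ_range := PsiA_range
      Ψ_norm := PsiA_norm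
      Ψ_one := PsiA_one
      emb := embA
      emb_mem := embA_mem
      P := PQ
      Ψ_emb := PsiA_emb }⟩

end Pool.Agent.Helper75.KT
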