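import Pool.Agent.Helper75.KT.VDefs

/-!
# F3: the localisation step for MP_0ce5f1_an
-/

set_option linter.unusedSectionVars false

namespace Pool.Agent.Helper75.KT

open Matrix Filter Topology CPd
open scoped Kronecker ComplexOrder Matrix.Norms.L2Operator

/-- index set of the localisation -/
abbrev SigL (i : ℕ) : Type := Fin 5 × {k : Fin (2 ^ i) // (k : ℕ) ≠ 0}

/-- a column of the off-diagonal part -/
noncomputable def colL (𝒟 : AlgData) (i : ℕ) (h : Fin 5 → 𝒟.D i) (x : SigL i) :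
    Matrix (RR (Nat.size x.2.1)) (Fin 1) C(XX, ℂ) :=
  fun r _ => 𝒟.Ψ i (h x.1) ⟨x.2.1, r⟩ (zs i)

theorem ee_mul_colL (𝒟 : AlgData) (i : ℕ) (h : Fin 5 → 𝒟.D i) (x : SigL i) :
    ee (Nat.size x.2.1) * colL 𝒟 i h x = colL 𝒟 i h x := by
  ext1 r u
  have h1 : 𝒟.Ψ i (h x.1) = qq 𝒟 i * 𝒟.Ψ i (h x.1) := by
    unfold qq
    rw [← map_mul, one_mul]
  have h2 := congrFun (congrFun h1 ⟨x.2.1, r⟩) (zs i)
  rw [Matrix.mul_apply, Fintype.sum_sigma] at h2
  rw [Finset.sum_eq_single x.2.1] at h2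
  · rw [Matrix.mul_apply]
    change _ = 𝒟.Ψ i (h x.1) ⟨x.2.1, r⟩ (zs i)
    rw [h2]
    refine Finset.sum_congr rfl fun t _ => ?_
    rw [qq_apply_eq]
    rfl
  · intro k _ hk
    refine Finset.sum_eq_zero fun t _ => ?_
    rw [qq_apply_ne 𝒟 i (k := ⟨x.2.1, r⟩) (l := ⟨k, t⟩) (fun e => hk e.symm), zero_mul]
  · intro hk
    exact absurd (Finset.mem_univ _) hk

/-- its squared length -/
noncomputable def lenL (𝒟 : AlgData) (i : ℕ) (h : Fin 5 → 𝒟.D i) (x : SigL i) : C(XX, ℂ) :=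
  ∑ r, star (colL 𝒟 i h x r 0) * colL 𝒟 i h x r 0

theorem lenL_apply (𝒟 : AlgData) (i : ℕ) (h : Fin 5 → 𝒟.D i) (x : SigL i) (p : XX) :
    lenL 𝒟 i h x p = ∑ r, star (colL 𝒟 i h x r 0 p) * colL 𝒟 i h x r 0 p := by
  unfold lenL
  rw [ContinuousMap.coe_sum, Finset.sum_apply]
  rfl

theorem loc_step (𝒟 : AlgData) (i : ℕ) (h : Fin 5 → 𝒟.D i) (y : K0 C(XX, ℂ))
    (hy : rs (VV 𝒟 i h) y = 0) :
    y * ∏ k ∈ (Finset.range (2 ^ i)).erase 0, (1 - ek k) ^ 5 = 0 := by
  classical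
  have hset : (⋂ x ∈ (Finset.univ : Finset (SigL i)), {p | lenL 𝒟 i h x p = 0})
      = VV 𝒟 i h := by
    ext p
    simp only [Finset.mem_univ, Set.iInter_true, Set.mem_iInter, Set.mem_ofPred_eq, VV]
    constructor
    · intro hp a k hk
      have h1 := hp (a, ⟨k.1, ne_zs i hk⟩)
      rw [lenL_apply, Finset.sum_eq_zero_iff_of_nonneg (fun r _ => star_mul_self_nonneg _)] at h1
      have h2 := h1 k.2 (Finset.mem_univ _)
      rw [CStarRing.star_mul_self_eq_zero_iff] at h2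
      exact h2
    · rintro hp ⟨a, k, hk⟩
      rw [lenL_apply]
      refine Finset.sum_eq_zero fun r _ => ?_
      have : colL 𝒟 i h (a, ⟨k, hk⟩) r 0 p = 0 := by
        refine hp a ⟨k, r⟩ ?_
        intro he
        apply hk
        rw [show k = (zs i).1 from congrArg Sigma.fst he]
        rfl
      rw [this, mul_zero]
  have hprod : ∏ k ∈ (Finset.range (2 ^ i)).erase 0, (1 - ek k) ^ 5 =
      ∏ x ∈ (Finset.univ : Finset (SigL i)), (1 - kcl (ee (Nat.size x.2.1))) := by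
    rw [Fintype.prod_prod_type, Finset.prod_pow]
    have hcst : ∀ P : K0 C(XX, ℂ), P ^ 5 = ∏ _a : Fin 5, P := fun P => by
      rw [Finset.prod_const, Finset.card_univ, Fintype.card_fin]
    rw [hcst]
    refine Finset.prod_congr rfl fun a _ => ?_
    symm
    refine Finset.prod_bij (fun (k : {k : Fin (2 ^ i) // (k : ℕ) ≠ 0}) _ => (k.1 : ℕ)) ?_ ?_ ?_ ?_
    · rintro ⟨k, hk⟩ _
      simp [hk]
    · rintro ⟨k, hk⟩ _ ⟨l, hl⟩ _ he
      exact Subtype.ext (Fin.ext he)
    · intro k hk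
      rw [Finset.mem_erase, Finset.mem_range] at hk
      exact ⟨⟨⟨k, hk.2⟩, hk.1⟩, Finset.mem_univ _, rfl⟩
    · intro k _
      rfl
  rw [hprod]
  refine loc_finset (μ := fun x : SigL i => RR (Nat.size x.2.1)) Finset.univ
    (fun x => {p | lenL 𝒟 i h x p = 0}) (fun x => isClosed_eq (lenL 𝒟 i h x).continuous
      continuous_const) (fun x => ee (Nat.size x.2.1)) (fun x => ee_pr _) (colL 𝒟 i h)
    (lenL 𝒟 i h) (ee_mul_colL 𝒟 i h) ?_ ?_ ?_ (fun x p hp => hp) y ?_
  · intro x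
    ext1 a b
    rw [Subsingleton.elim a 0, Subsingleton.elim b 0, Matrix.mul_apply, Matrix.smul_apply,
      Matrix.one_apply_eq, smul_eq_mul, mul_one]
    rfl
  · intro x
    apply evM_ext
    intro p
    obtain ⟨U, hU1, hU2⟩ := exists_vec (Nat.size x.2.1) p
    set c : ℂ := ∑ t, star (U t) * colL 𝒟 i h x t 0 p with hc
    have hcol : ∀ r, colL 𝒟 i h x r 0 p = U r * c := by
      intro r
      have h1 := congrArg (fun M => evM p M r 0) (ee_mul_colL 𝒟 i h x)
      simp only [evM_mul, Matrix.mul_apply] at h1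
      rw [evM_apply] at h1
      rw [← h1, hc, Finset.mul_sum]
      refine Finset.sum_congr rfl fun t _ => ?_
      rw [evM_apply, evM_apply, hU1]
      ring
    have hlen : lenL 𝒟 i h x p = star c * c := by
      rw [lenL_apply]
      have : ∀ r, star (colL 𝒟 i h x r 0 p) * colL 𝒟 i h x r 0 p
          = (U r * star (U r)) * (star c * c) := by
        intro r
        rw [hcol, star_mul]
        ring
      rw [Finset.sum_congr rfl fun r _ => this r, ← Finset.sum_mul, hU2, one_mul]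
    rw [evM_mul, evM_conjT, evM_smul]
    ext1 r s
    rw [Matrix.mul_apply, Matrix.smul_apply, hlen, Fintype.sum_unique, evM_apply,
      Matrix.conjTranspose_apply, evM_apply, evM_apply, hU1, smul_eq_mul]
    change colL 𝒟 i h x r 0 p * star (colL 𝒟 i h x s 0 p) = _
    rw [hcol, hcol, star_mul]
    ring
  · intro x p
    rw [lenL_apply]
    exact Finset.sum_nonneg fun r _ => star_mul_self_nonneg _
  · rw [hset]
    exact hy

end Pool.Agent.Helper75.KT
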